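import Pool.Agent.H62.GG.CI2
import Pool.Agent.H46.GG.CIP

/-!
# Row CIQ (board rgd_modules): the jets of the top order of a Laurent polynomial
-/

set_option autoImplicit false

namespace Pool.Agent.H29.GG

open NumberField Height Finset Polynomial Pool.Agent.H24.RD Pool.Agent.H23.RDD Pool.Agent.H29.RQ
  Pool.Agent.H29.SX Pool.Agent.H29.LG Pool.Agent.H64.GG

/-- the triangular linear forms -/
noncomputable def Lf {M : Type} [Field M] {r : ℕ} (a : Fin (r + 1) → M) (c : Fin r → M) :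
    Fin (r + 1) → MvPolynomial (Fin (r + 1)) M :=
  Fin.cons (∑ l, MvPolynomial.C (a l) * MvPolynomial.X l)
    (fun i => MvPolynomial.C (c i) * MvPolynomial.X i.succ)

section forms

variable {M : Type} [Field M] {r : ℕ} (a : Fin (r + 1) → M) (c : Fin r → M)

/-- the products of the forms as polynomials in the first variable -/
theorem fse_prod (e : Fin (r + 1) → ℕ) :
    MvPolynomial.finSuccEquiv M r (∏ i, Lf a c i ^ e i) =
      (Polynomial.C (MvPolynomial.C (a 0)) * Polynomial.X +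
        Polynomial.C (∑ l : Fin r, MvPolynomial.C (a l.succ) * MvPolynomial.X l)) ^ e 0 *
      Polynomial.C (MvPolynomial.monomial
        (Finsupp.equivFunOnFinite.symm (fun i : Fin r => e i.succ)) (∏ i, c i ^ e i.succ)) := by
  have hC : ∀ y : M, MvPolynomial.finSuccEquiv M r (MvPolynomial.C y) =
      Polynomial.C (MvPolynomial.C y) := by
    intro y
    rw [MvPolynomial.finSuccEquiv_apply]
    simp
  rw [map_prod, Fin.prod_univ_succ]
  congr 1
  · rw [map_pow]
    congr 1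
    show MvPolynomial.finSuccEquiv M r (∑ l, MvPolynomial.C (a l) * MvPolynomial.X l) = _
    rw [map_sum, Fin.sum_univ_succ, map_sum]
    congr 1
    · rw [map_mul, hC, MvPolynomial.finSuccEquiv_X_zero]
    · refine Finset.sum_congr rfl fun l _ => ?_
      rw [map_mul, hC, MvPolynomial.finSuccEquiv_X_succ, ← Polynomial.C_mul]
  · have h1 : ∀ i : Fin r, MvPolynomial.finSuccEquiv M r (Lf a c i.succ ^ e i.succ) =
        Polynomial.C ((MvPolynomial.C (c i) * MvPolynomial.X i) ^ e i.succ) := by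
      intro i
      show MvPolynomial.finSuccEquiv M r
        ((MvPolynomial.C (c i) * MvPolynomial.X i.succ) ^ e i.succ) = _
      rw [map_pow, map_mul, hC, MvPolynomial.finSuccEquiv_X_succ, ← Polynomial.C_mul,
        ← Polynomial.C_pow]
    rw [Finset.prod_congr rfl fun i _ => h1 i, ← map_prod]
    congr 1
    rw [MvPolynomial.monomial_eq, Finsupp.prod_fintype _ _ (by simp), map_prod,
      ← Finset.prod_mul_distrib]
    refine Finset.prod_congr rfl fun i _ => ?_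
    rw [mul_pow, map_pow]
    rfl

theorem deg_aux (x y : MvPolynomial (Fin r) M) :
    (Polynomial.C x * Polynomial.X + Polynomial.C y).natDegree ≤ 1 :=
  Polynomial.natDegree_linear_le

theorem coeff_gt (e κ : Fin (r + 1) → ℕ) (h : e 0 < κ 0) :
    (∏ i, Lf a c i ^ e i).coeff (Finsupp.equivFunOnFinite.symm κ) = 0 := by
  have h1 := MvPolynomial.finSuccEquiv_coeff_coeff
    (Finsupp.tail (Finsupp.equivFunOnFinite.symm κ)) (∏ i, Lf a c i ^ e i) (κ 0)
  have h2 : Finsupp.cons (κ 0) (Finsupp.tail (Finsupp.equivFunOnFinite.symm κ)) =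
      Finsupp.equivFunOnFinite.symm κ := by
    have := Finsupp.cons_tail (Finsupp.equivFunOnFinite.symm κ)
    exact this
  rw [h2] at h1
  rw [← h1, fse_prod, Polynomial.coeff_mul_C, Polynomial.coeff_eq_zero_of_natDegree_lt, zero_mul,
    MvPolynomial.coeff_zero]
  refine lt_of_le_of_lt (Polynomial.natDegree_pow_le_of_le (e 0) (deg_aux _ _)) ?_
  rw [mul_one]
  exact h

theorem coeff_eq (e κ : Fin (r + 1) → ℕ) (h : e 0 = κ 0) :
    (∏ i, Lf a c i ^ e i).coeff (Finsupp.equivFunOnFinite.symm κ) =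
      if e = κ then a 0 ^ e 0 * ∏ i, c i ^ e i.succ else 0 := by
  have h1 := MvPolynomial.finSuccEquiv_coeff_coeff
    (Finsupp.tail (Finsupp.equivFunOnFinite.symm κ)) (∏ i, Lf a c i ^ e i) (κ 0)
  have h2 : Finsupp.cons (κ 0) (Finsupp.tail (Finsupp.equivFunOnFinite.symm κ)) =
      Finsupp.equivFunOnFinite.symm κ := by
    have := Finsupp.cons_tail (Finsupp.equivFunOnFinite.symm κ)
    exact this
  rw [h2] at h1
  rw [← h1, fse_prod, Polynomial.coeff_mul_C]
  have h3 : ((Polynomial.C (MvPolynomial.C (a 0)) * Polynomial.X +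
        Polynomial.C (∑ l : Fin r, MvPolynomial.C (a l.succ) * MvPolynomial.X l)) ^ e 0).coeff
        (κ 0) = MvPolynomial.C (a 0 ^ e 0) := by
    have h4 := Polynomial.coeff_pow_of_natDegree_le (m := e 0) (deg_aux (MvPolynomial.C (a 0))
      (∑ l : Fin r, MvPolynomial.C (a l.succ) * MvPolynomial.X l))
    rw [mul_one, h] at h4
    rw [h, h4, Polynomial.coeff_add, Polynomial.coeff_C_mul, Polynomial.coeff_X_one, mul_one,
      Polynomial.coeff_C_succ, add_zero, map_pow]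
  rw [h3, MvPolynomial.coeff_C_mul, MvPolynomial.coeff_monomial]
  by_cases he : e = κ
  · subst he
    rw [if_pos rfl, if_pos]
    ext i
    rfl
  · rw [if_neg he, if_neg, mul_zero]
    intro hc
    apply he
    funext i
    refine Fin.cases h (fun j => ?_) i
    exact DFunLike.congr_fun hc j

/-- the coefficient of the highest power of the first variable -/
theorem coeff_top (T : ℕ) (v : (Fin (r + 1) → ℕ) → M) (κ : Fin (r + 1) → ℕ)
    (hκ : ∑ i, κ i = T)
    (hv : ∀ e ∈ Finset.piAntidiag (univ : Finset (Fin (r + 1))) T, κ 0 < e 0 → v e = 0) :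
    ∑ e ∈ Finset.piAntidiag (univ : Finset (Fin (r + 1))) T,
      v e * (∏ i, Lf a c i ^ e i).coeff (Finsupp.equivFunOnFinite.symm κ) =
    v κ * (a 0 ^ κ 0 * ∏ i, c i ^ κ i.succ) := by
  rw [Finset.sum_eq_single κ]
  · rw [coeff_eq a c κ κ rfl, if_pos rfl]
  · intro e he hne
    rcases lt_trichotomy (e 0) (κ 0) with h | h | h
    · rw [coeff_gt a c e κ h, mul_zero]
    · rw [coeff_eq a c e κ h, if_neg hne, mul_zero]
    · rw [hv e he h, zero_mul]
  · intro h
    exact absurd (Finset.mem_piAntidiag.2 ⟨hκ, fun i _ => Finset.mem_univ i⟩) h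

/-- vanishing of the coefficients of high order in the first variable -/
theorem vanish (ha : a 0 ≠ 0) (hc : ∀ i, c i ≠ 0) (T k : ℕ) (v : (Fin (r + 1) → ℕ) → M)
    (h : ∀ κ : Fin (r + 1) → ℕ, ∑ i, κ i = T → k < κ 0 →
      ∑ e ∈ Finset.piAntidiag (univ : Finset (Fin (r + 1))) T,
        v e * (∏ i, Lf a c i ^ e i).coeff (Finsupp.equivFunOnFinite.symm κ) = 0) (n : ℕ) :
    ∀ e ∈ Finset.piAntidiag (univ : Finset (Fin (r + 1))) T, k < e 0 → T < e 0 + n → v e = 0 := by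
  induction n with
  | zero =>
    intro e he _ h2
    have h3 := (Finset.mem_piAntidiag.1 he).1
    have h4 : e 0 ≤ ∑ i, e i :=
      Finset.single_le_sum (f := fun i => e i) (fun i _ => Nat.zero_le _) (Finset.mem_univ 0)
    have h5 : ∑ i, e i = T := h3
    omega
  | succ n ih =>
    intro e he hk h2
    have h3 := (Finset.mem_piAntidiag.1 he).1
    have h4 := h e h3 hk
    rw [coeff_top a c T v e h3 (fun f hf hlt => ih f hf (hk.trans hlt) (by omega))] at h4
    exact (mul_eq_zero.1 h4).resolve_right (mul_ne_zero (pow_ne_zero _ ha)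
      (Finset.prod_ne_zero_iff.2 fun i _ => pow_ne_zero _ (hc i)))

end forms

section jets

variable {K M : Type} [Field K] [Field M] [Algebra K M] {m : ℕ} (P : Fin m → M)

/-- the Leibniz rule for the jets of lowest order -/
theorem JJ_mul_top (s : ℕ) : ∀ (S F : MvPolynomial (Fin m) K),
    (∀ κ : Fin m → ℕ, ∑ i, κ i < s → JJ P κ F = 0) →
    ∀ κ : Fin m → ℕ, ∑ i, κ i = s → JJ P κ (S * F) = MvPolynomial.aeval P S * JJ P κ F := by
  induction s with
  | zero =>
    intro S F hF κ hκ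
    have h0 : κ = 0 := by
      funext i
      exact Finset.sum_eq_zero_iff.1 hκ i (Finset.mem_univ i)
    rw [h0, Pool.Agent.H62.GG.JJ_zero, Pool.Agent.H62.GG.JJ_zero, map_mul]
  | succ s ih =>
    intro S F hF κ hκ
    obtain ⟨i, κ', h1, h2⟩ := Pool.Agent.H62.GG.exists_single κ hκ
    rw [h1, ← Pool.Agent.H62.GG.JJ_De, ← Pool.Agent.H62.GG.JJ_De, Pool.Agent.H62.GG.De_mul,
      Pool.Agent.H62.GG.JJ_add]
    have a1 : JJ P κ' (Pool.Agent.H62.GG.De i S * F) = 0 :=
      Pool.Agent.H62.GG.JJ_mul_zero P s _ F (fun κ'' h => hF κ'' (by omega)) κ' (by omega)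
    have a2 := ih S (Pool.Agent.H62.GG.De i F) (fun κ'' h => by
      rw [Pool.Agent.H62.GG.JJ_De]
      apply hF
      have : ∑ j, (κ'' + Pi.single i 1 : Fin m → ℕ) j = ∑ j, κ'' j + 1 := by
        simp only [Pi.add_apply]
        rw [Finset.sum_add_distrib, Finset.sum_pi_single']
        simp
      omega) κ' h2
    rw [a1, a2, zero_add]

/-- the jets of integral polynomials are integral -/
theorem JJ_le {w : AbsoluteValue M ℝ} (hna : IsNonarchimedean w) (hP : ∀ i, w (P i) ≤ 1)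
    (κ : Fin m → ℕ) (F : MvPolynomial (Fin m) K) (hF : Itg w F) : w (JJ P κ F) ≤ 1 := by
  unfold JJ
  refine Pool.Agent.H46.GG.na_sum hna _ _ zero_le_one fun n _ => ?_
  rw [map_mul, map_mul, map_prod, map_prod]
  refine mul_le_one₀ (hF n) (by positivity) (mul_le_one₀ ?_ (by positivity) ?_)
  · refine Finset.prod_le_one (fun i _ => w.nonneg _) fun i _ => ?_
    rw [map_pow]
    exact pow_le_one₀ (w.nonneg _) (Pool.Agent.H46.GG.na_nat hna _)
  · refine Finset.prod_le_one (fun i _ => w.nonneg _) fun i _ => ?_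
    rw [map_pow]
    exact pow_le_one₀ (w.nonneg _) (hP i)

end jets

/-- the linear forms of the generators -/
theorem lin_fam {K M : Type} [Field K] [Field M] [Algebra K M] {r : ℕ} (N : Fin r → ℕ)
    (c : Fin r → K) (θ : Fin r → M) (β : M) (hN : ∀ i, 0 < N i) (g : MvPolynomial (Fin (r + 1)) K)
    (i : Fin (r + 1)) :
    (∑ l, MvPolynomial.C (JJ (Fin.cons β θ : Fin (r + 1) → M) (Pi.single l 1) (fam N c g i)) *
      MvPolynomial.X l : MvPolynomial (Fin (r + 1)) M) =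
    Lf (fun l => JJ (Fin.cons β θ : Fin (r + 1) → M) (Pi.single l 1) g)
      (fun i => (N i : M) * θ i ^ N i) i := by
  set P : Fin (r + 1) → M := Fin.cons β θ with hP
  refine Fin.cases ?_ (fun j => ?_) i
  · rfl
  · show _ = MvPolynomial.C ((N j : M) * θ j ^ N j) * MvPolynomial.X j.succ
    have h1 : ∀ l, JJ P (Pi.single l 1) (fam N c g j.succ) =
        if l = j.succ then (N j : M) * θ j ^ N j else 0 := by
      intro l
      have h2 : (Pi.single l 1 : Fin (r + 1) → ℕ) = 0 + Pi.single l 1 := by rw [zero_add]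
      rw [h2, ← Pool.Agent.H62.GG.JJ_De, Pool.Agent.H62.GG.JJ_zero]
      show MvPolynomial.aeval P (MvPolynomial.X l * MvPolynomial.pderiv l
        (MvPolynomial.X j.succ ^ N j - MvPolynomial.C (c j))) = _
      rw [map_sub, MvPolynomial.pderiv_C, sub_zero, Derivation.leibniz_pow,
        MvPolynomial.pderiv_X]
      by_cases hl : l = j.succ
      · rw [if_pos hl, hl, Pi.single_eq_same]
        simp only [map_mul, MvPolynomial.aeval_X, map_smul, smul_eq_mul, map_pow, map_one,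
          mul_one, nsmul_eq_mul, map_natCast]
        rw [hP, Fin.cons_succ]
        have h3 : θ j ^ N j = θ j * θ j ^ (N j - 1) := by
          rw [← pow_succ']
          congr 1
          have := hN j
          omega
        rw [h3]; ring
      · rw [if_neg hl, Pi.single_eq_of_ne (fun h => hl h.symm)]
        simp
    simp only [h1]
    rw [Finset.sum_eq_single j.succ]
    · rw [if_pos rfl]
    · intro l _ hl
      rw [if_neg hl, MvPolynomial.C_0, zero_mul]
    · intro h; exact absurd (Finset.mem_univ _) h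

theorem ciq_main (hMAX : T_MAX) (hCI1 : T_CI1) (hCI2 : T_CI2) (hLED : T_LED) (hSHF : T_SHF)
    (K M : Type) [Field K] [NumberField K] [Field M] [NumberField M]
    [Algebra K M] (r : ℕ) (a : Fin r → ℚ) (N : Fin r → ℕ) (θ : Fin r → M) (p : ℕ)
    (hL : LocD K M a N θ p) (β : M) (hβ : β ≠ 0) (w : FinitePlace M) (hwp : w.1 (p : M) < 1)
    (R : ℕ) (nn : Fin R → Fin (r + 1) → ℤ) (x : Fin R → K)
    (hx : ∀ j, w.1 (algebraMap K M (x j)) ≤ 1) (κ : Fin (r + 1) → ℕ)
    (hJ : ∀ κ' : Fin (r + 1) → ℕ, ∑ i, κ' i < ∑ i, κ i → JL θ β nn κ' x = 0)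
    (hJ2 : ∀ κ' : Fin (r + 1) → ℕ, ∑ i, κ' i = ∑ i, κ i → κ 0 < κ' 0 → JL θ β nn κ' x = 0)
    (B : ℝ) (hB : 0 < B)
    (hBn : ∀ j, w.1 (pt θ β (nn j)) ≤ B) (hwβ : w.1 β ≤ 1) (hR : 0 < R) :
    w.1 (JL θ β nn κ x) ≤ (∏ i, w.1 ((N i : ℕ) : M) ^ κ i.succ) * B := by
  have hna : IsNonarchimedean w.1 := fun x y => FinitePlace.add_le w x y
  have hp := hL.prime
  have hwθ : ∀ i, w.1 (θ i) = 1 := by
    intro i
    have h1 : w.1 (θ i) ^ N i = 1 := by
      rw [← map_pow, hL.pow i]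
      exact Pool.Agent.H46.GG.na_rat hna hp hwp (hL.good.nz i) (hL.unit i)
    exact (pow_eq_one_iff_of_nonneg (w.1.nonneg _) (hL.good.pos i).ne').1 h1
  have hθ0 : ∀ i, θ i ≠ 0 := fun i h => by
    have := hwθ i
    rw [h, map_zero] at this
    exact zero_ne_one this
  obtain ⟨P, hP⟩ : ∃ P : Fin (r + 1) → M, P = Fin.cons β θ := ⟨_, rfl⟩
  have hP1 : ∀ i, w.1 (P i) ≤ 1 := by
    intro i
    rw [hP]
    refine Fin.cases ?_ (fun j => ?_) i
    · exact hwβ
    · exact (hwθ j).le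
  have hc : ∀ i, θ i ^ N i = algebraMap K M (algebraMap ℚ K (a i)) := by
    intro i
    rw [hL.pow i]
    exact (IsScalarTower.algebraMap_apply ℚ K M (a i))
  obtain ⟨F, j₀, u, -, hF1, hF2, -⟩ := hSHF K M r R θ β nn x hR hβ hθ0
  have hFI : Itg w.1 F := hF1 w.1 hna hx
  obtain ⟨hFJ, hFT⟩ := hF2 (∑ i, κ i) hJ
  obtain ⟨g, hg1, hg2, hg3, hg4⟩ := hCI1 K M w r N (fun i => algebraMap ℚ K (a i)) θ β
    hL.good.pos hc hwθ hL.ind hwβ (fun b hb hb1 => hMAX K M r a N θ p hL w hwp b hb hb1)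
  obtain ⟨S, H, hS1, hS2, hH, hSF⟩ := hCI2 K M w r N (fun i => algebraMap ℚ K (a i)) θ β
    hL.good.pos hc hwθ hβ hwβ g hg1 hg2 hg3 hg4 (∑ i, κ i) F hFI hFJ
  obtain ⟨v, hv⟩ : ∃ v : (Fin (r + 1) → ℕ) → M, v = fun e => MvPolynomial.aeval P (H e) :=
    ⟨_, rfl⟩
  obtain ⟨al, hal⟩ : ∃ al : Fin (r + 1) → M, al = fun l => JJ P (Pi.single l 1) g := ⟨_, rfl⟩
  obtain ⟨cl, hcl⟩ : ∃ cl : Fin r → M, cl = fun i => (N i : M) * θ i ^ N i := ⟨_, rfl⟩
  obtain ⟨μ, hμ⟩ : ∃ μ : M, μ = β ^ (-nn j₀ 0) * ∏ i, θ i ^ u i := ⟨_, rfl⟩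
  rw [← hP] at hFJ hFT hg2 hg3 hS2
  rw [← hμ] at hFT
  have hlin : ∀ i, (∑ l, MvPolynomial.C (JJ P (Pi.single l 1)
      (fam N (fun i => algebraMap ℚ K (a i)) g i)) *
      MvPolynomial.X l : MvPolynomial (Fin (r + 1)) M) = Lf al cl i := by
    intro i
    rw [hal, hcl, hP]
    exact lin_fam N _ θ β hL.good.pos g i
  have hfam0 : ∀ i, MvPolynomial.aeval P (fam N (fun i => algebraMap ℚ K (a i)) g i) = 0 := by
    intro i
    refine Fin.cases ?_ (fun j => ?_) i
    · exact hg2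
    · show MvPolynomial.aeval P
        (MvPolynomial.X j.succ ^ N j - MvPolynomial.C (algebraMap ℚ K (a j))) = 0
      rw [map_sub, map_pow, MvPolynomial.aeval_X, MvPolynomial.aeval_C, sub_eq_zero, hP]
      exact hc j
  -- the jets of `F` of the top order
  have hkey : ∀ κ' : Fin (r + 1) → ℕ, ∑ i, κ' i = ∑ i, κ i →
      MvPolynomial.aeval P S * JJ P κ' F = (∏ i, ((κ' i).factorial : M)) *
      ∑ e ∈ Finset.piAntidiag (univ : Finset (Fin (r + 1))) (∑ i, κ i),
        v e * (∏ i, Lf al cl i ^ e i).coeff (Finsupp.equivFunOnFinite.symm κ') := by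
    intro κ' hκ'
    rw [← JJ_mul_top P (∑ i, κ i) S F hFJ κ' hκ', hSF, Pool.Agent.H62.GG.JJ_sum, Finset.mul_sum]
    refine Finset.sum_congr rfl fun e he => ?_
    have h1 := (hLED K M (r + 1) P (fam N (fun i => algebraMap ℚ K (a i)) g) hfam0 e κ' (H e)).2
      (by rw [hκ']; exact (Finset.mem_piAntidiag.1 he).1.symm)
    simp only [hlin] at h1
    rw [h1, hv]
    ring
  have hS0 : MvPolynomial.aeval P S ≠ 0 := by
    intro h
    rw [h, map_zero] at hS2
    exact zero_ne_one hS2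
  have hfac : ∀ κ' : Fin (r + 1) → ℕ, (∏ i, ((κ' i).factorial : M)) ≠ 0 := fun κ' =>
    Finset.prod_ne_zero_iff.2 fun i _ => by exact_mod_cast (κ' i).factorial_ne_zero
  have hal0 : al 0 ≠ 0 := by
    rw [hal]
    show JJ P (Pi.single 0 1) g ≠ 0
    have h2 : (Pi.single 0 1 : Fin (r + 1) → ℕ) = 0 + Pi.single 0 1 := by rw [zero_add]
    rw [h2, ← Pool.Agent.H62.GG.JJ_De, Pool.Agent.H62.GG.JJ_zero]
    show MvPolynomial.aeval P (MvPolynomial.X 0 * MvPolynomial.pderiv 0 g) ≠ 0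
    rw [map_mul, MvPolynomial.aeval_X]
    refine mul_ne_zero ?_ hg3
    rw [hP]
    exact hβ
  have hcl0 : ∀ i, cl i ≠ 0 := by
    intro i
    rw [hcl]
    refine mul_ne_zero ?_ (pow_ne_zero _ (hθ0 i))
    exact_mod_cast (hL.good.pos i).ne'
  have hcoef : ∀ κ' : Fin (r + 1) → ℕ, ∑ i, κ' i = ∑ i, κ i → κ 0 < κ' 0 →
      ∑ e ∈ Finset.piAntidiag (univ : Finset (Fin (r + 1))) (∑ i, κ i),
        v e * (∏ i, Lf al cl i ^ e i).coeff (Finsupp.equivFunOnFinite.symm κ') = 0 := by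
    intro κ' h1 h2
    have h3 := hkey κ' h1
    rw [hFT κ' h1, hJ2 κ' h1 h2, mul_zero, mul_zero] at h3
    exact (mul_eq_zero.1 h3.symm).resolve_left (hfac κ')
  have hvan := vanish al cl hal0 hcl0 (∑ i, κ i) (κ 0) v hcoef ((∑ i, κ i) + 1)
  have htop := hkey κ rfl
  rw [coeff_top al cl (∑ i, κ i) v κ rfl (fun e he h => hvan e he h (by omega))] at htop
  -- the absolute values
  have hJF : w.1 (JJ P κ F) ≤ ∏ i, w.1 ((N i : ℕ) : M) ^ κ i.succ := by
    have h1 := congrArg w.1 htop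
    rw [map_mul, hS2, one_mul] at h1
    rw [h1, map_mul, map_mul, map_mul, map_prod]
    have h2 : ∏ i, w.1 ((κ i).factorial : M) ≤ 1 :=
      Finset.prod_le_one (fun i _ => w.1.nonneg _) fun i _ => Pool.Agent.H46.GG.na_nat hna _
    have h3 : w.1 (v κ) ≤ 1 := by
      rw [hv]
      exact Pool.Agent.H62.GG.itg_aeval hna (hH κ) hP1
    have h4 : w.1 (al 0 ^ κ 0) ≤ 1 := by
      rw [map_pow, hal]
      exact pow_le_one₀ (w.1.nonneg _) (JJ_le P hna hP1 _ g hg1)
    have h5 : w.1 (∏ i, cl i ^ κ i.succ) = ∏ i, w.1 ((N i : ℕ) : M) ^ κ i.succ := by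
      rw [map_prod]
      refine Finset.prod_congr rfl fun i _ => ?_
      rw [map_pow, hcl]
      show w.1 ((N i : M) * θ i ^ N i) ^ κ i.succ = _
      rw [map_mul, map_pow, hwθ i, one_pow, mul_one]
    rw [h5]
    have h6 : 0 ≤ ∏ i, w.1 ((N i : ℕ) : M) ^ κ i.succ :=
      Finset.prod_nonneg fun i _ => pow_nonneg (w.1.nonneg _) _
    have h7 : w.1 (al 0 ^ κ 0) * ∏ i, w.1 ((N i : ℕ) : M) ^ κ i.succ ≤
        ∏ i, w.1 ((N i : ℕ) : M) ^ κ i.succ := mul_le_of_le_one_left h6 h4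
    have h8 : w.1 (v κ) * (w.1 (al 0 ^ κ 0) * ∏ i, w.1 ((N i : ℕ) : M) ^ κ i.succ) ≤
        ∏ i, w.1 ((N i : ℕ) : M) ^ κ i.succ :=
      (mul_le_of_le_one_left (mul_nonneg (w.1.nonneg _) h6) h3).trans h7
    exact (mul_le_of_le_one_left (mul_nonneg (w.1.nonneg _)
      (mul_nonneg (w.1.nonneg _) h6)) h2).trans h8
  have hwμ : 1 ≤ w.1 μ * B := by
    have h1 : w.1 μ = (w.1 β) ^ (-nn j₀ 0) := by
      rw [hμ, map_mul, map_zpow₀, map_prod]
      have h2 : ∏ i, w.1 (θ i ^ u i) = 1 :=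
        Finset.prod_eq_one fun i _ => by rw [map_zpow₀, hwθ i, one_zpow]
      rw [h2, mul_one]
    have h2 : w.1 (pt θ β (nn j₀)) = (w.1 β) ^ (nn j₀ 0) := by
      unfold pt
      rw [map_mul, map_zpow₀, map_prod]
      have h2 : ∏ i : Fin r, w.1 (θ i ^ nn j₀ i.succ) = 1 :=
        Finset.prod_eq_one fun i _ => by rw [map_zpow₀, hwθ i, one_zpow]
      rw [h2, mul_one]
    have h3 : w.1 μ * w.1 (pt θ β (nn j₀)) = 1 := by
      rw [h1, h2, ← zpow_add₀ (w.1.ne_zero hβ), neg_add_cancel, zpow_zero]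
    rw [← h3]
    exact mul_le_mul_of_nonneg_left (hBn j₀) (w.1.nonneg _)
  have h5 : w.1 (JJ P κ F) = w.1 μ * w.1 (JL θ β nn κ x) := by
    rw [hFT κ rfl, map_mul]
  calc w.1 (JL θ β nn κ x) = w.1 (JL θ β nn κ x) * 1 := (mul_one _).symm
    _ ≤ w.1 (JL θ β nn κ x) * (w.1 μ * B) := mul_le_mul_of_nonneg_left hwμ (w.1.nonneg _)
    _ = w.1 (JJ P κ F) * B := by rw [h5]; ring
    _ ≤ _ := mul_le_mul_of_nonneg_right hJF hB.le

theorem pf_CIQ (hMAX : T_MAX) (hCI1 : T_CI1) (hCI2 : T_CI2) (hLED : T_LED) (hSHF : T_SHF) :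
    T_CIQ := by
  intro K M _ _ _ _ _ r a N θ p hL β hβ w hwp R nn x hx κ hJ hJ2 B hB hBn
  rcases Nat.eq_zero_or_pos R with hR | hR
  · subst hR
    unfold JL
    rw [Finset.univ_eq_empty, Finset.sum_empty, map_zero]
    exact mul_nonneg (Finset.prod_nonneg fun i _ => pow_nonneg (w.1.nonneg _) _) hB.le
  by_cases hwβ : w.1 β ≤ 1
  · exact ciq_main hMAX hCI1 hCI2 hLED hSHF K M r a N θ p hL β hβ w hwp R nn x hx κ hJ hJ2 B
      hB hBn hwβ hR
  · set nn' : Fin R → Fin (r + 1) → ℤ := fun j => Fin.cons (-(nn j 0)) (fun i => nn j i.succ)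
      with hnn'
    have hpt : ∀ j, pt θ β⁻¹ (nn' j) = pt θ β (nn j) := by
      intro j
      unfold pt
      simp only [hnn', Fin.cons_zero, Fin.cons_succ]
      rw [zpow_neg, inv_zpow, inv_inv]
    have hjc : ∀ (κ : Fin (r + 1) → ℕ) j, jc M κ (nn' j) = (-1) ^ κ 0 * jc M κ (nn j) := by
      intro κ j
      unfold jc
      rw [Fin.prod_univ_succ, Fin.prod_univ_succ]
      simp only [hnn', Fin.cons_zero, Fin.cons_succ]
      rw [Int.cast_neg, neg_pow, mul_assoc]
    have hJL : ∀ κ : Fin (r + 1) → ℕ, JL θ β⁻¹ nn' κ x = (-1) ^ κ 0 * JL θ β nn κ x := by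
      intro κ
      unfold JL
      rw [Finset.mul_sum]
      refine Finset.sum_congr rfl fun j _ => ?_
      rw [hpt, hjc]
      ring
    have h := ciq_main hMAX hCI1 hCI2 hLED hSHF K M r a N θ p hL β⁻¹ (inv_ne_zero hβ) w hwp
      R nn' x hx κ (fun κ' h => by rw [hJL, hJ κ' h, mul_zero])
      (fun κ' h h2 => by rw [hJL, hJ2 κ' h h2, mul_zero]) B hB
      (fun j => by rw [hpt]; exact hBn j) (by
        rw [map_inv₀]
        exact inv_le_one_of_one_le₀ (not_le.1 hwβ).le) hR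
    rw [hJL, map_mul, map_pow, AbsoluteValue.map_neg, map_one, one_pow, one_mul] at h
    exact h

end Pool.Agent.H29.GG
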