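import Pool.Agent.H29.GG.Ext

set_option autoImplicit false

/-!
# Row CNJ: the conjugates over `K` are conjugates over a larger cyclotomic field
-/

namespace Pool.Agent.H29.GG

open NumberField Height Finset Polynomial Pool.Agent.H24.RD Pool.Agent.H23.RDD Pool.Agent.H29.RQ
  Pool.Agent.H29.SX Pool.Agent.H29.LG Pool.Agent.H64.GG

theorem pf_CNJ : T_CNJ := by
  intro r N c θ β K m₃ _ hN hθ _ hK hI hyp σ hσ
  obtain ⟨τ₁, h1, h2⟩ := ext_one N c θ (CY m₃) hN hθ hI (fun i => σ (θ i)) (fun i => by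
    rw [← map_pow, hθ i, AlgEquiv.commutes])
  obtain ⟨τ, h3, h4, h5⟩ := hyp (σ.trans τ₁.symm) (fun z hz => by
      rw [AlgEquiv.trans_apply, hσ z hz, AlgEquiv.symm_apply_eq, h1 z (hK hz)])
    (fun i => by
      rw [AlgEquiv.trans_apply, AlgEquiv.symm_apply_eq]
      exact (h2 i).symm)
  refine ⟨τ.trans τ₁, fun z hz => ?_, fun i => ?_, ?_⟩
  · rw [AlgEquiv.trans_apply, h3 z hz, h1 z hz]
  · rw [AlgEquiv.trans_apply, h4 i]
    exact h2 i
  · rw [AlgEquiv.trans_apply, h5, AlgEquiv.trans_apply, AlgEquiv.apply_symm_apply]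

end Pool.Agent.H29.GG
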