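import Pool.Agent.H29.GG.Ext
import Pool.Agent.H69.REM.VLI

set_option autoImplicit false

/-!
# Row DEGZ: the radicals stay independent over cyclotomic fields
-/

namespace Pool.Agent.H29.GG

open NumberField Height Finset Polynomial Pool.Agent.H24.RD Pool.Agent.H23.RDD Pool.Agent.H29.RQ
  Pool.Agent.H29.SX Pool.Agent.H29.LG Pool.Agent.H64.GG IsDedekindDomain

theorem cy_eq (m : ℕ) (hm : 0 < m) :
    ∃ ζ : Om, IsPrimitiveRoot ζ m ∧ CY m = IntermediateField.adjoin ℚ {ζ} := by
  have hM0 : NeZero (m : Om) := ⟨Nat.cast_ne_zero.2 hm.ne'⟩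
  have hM1 : NeZero m := ⟨hm.ne'⟩
  obtain ⟨ζ, hζ⟩ := HasEnoughRootsOfUnity.exists_primitiveRoot Om m
  refine ⟨ζ, hζ, le_antisymm ?_ ?_⟩
  · unfold CY
    rw [IntermediateField.adjoin_le_iff]
    intro z hz
    obtain ⟨i, -, rfl⟩ := hζ.eq_pow_of_pow_eq_one (show z ^ m = 1 from hz)
    exact pow_mem (IntermediateField.subset_adjoin ℚ _ (Set.mem_singleton ζ)) i
  · unfold CY
    apply IntermediateField.adjoin.mono
    intro z hz
    rw [Set.mem_singleton_iff] at hz
    subst hz
    exact hζ.pow_eq_one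

theorem int_om (z : Om) : IsIntegral ℚ z := by
  have h0 : Algebra.IsAlgebraic ℚ Om := AlgebraicClosure.isAlgebraic ℚ
  exact Algebra.IsIntegral.isIntegral z

theorem cy_fin (m : ℕ) (hm : 0 < m) : FiniteDimensional ℚ (CY m) := by
  obtain ⟨ζ, -, h⟩ := cy_eq m hm
  rw [h]
  exact IntermediateField.adjoin.finiteDimensional (int_om ζ)

theorem cy_deg (m : ℕ) (hm : 0 < m) : Module.finrank ℚ (CY m) = m.totient := by
  obtain ⟨ζ, hζ, h⟩ := cy_eq m hm
  rw [h, IntermediateField.adjoin.finrank (int_om ζ),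
    ← Polynomial.cyclotomic_eq_minpoly_rat hζ hm, natDegree_cyclotomic]

theorem cy_mono {m m₂ : ℕ} (h : m ∣ m₂) : CY m ≤ CY m₂ := by
  unfold CY
  apply IntermediateField.adjoin.mono
  intro z hz
  obtain ⟨k, rfl⟩ := h
  change z ^ (m * k) = 1
  have hz' : z ^ m = 1 := hz
  rw [pow_mul, hz', one_pow]

/-- There is a place above `q`. -/
theorem place_above (M : Type) [Field M] [NumberField M] (q : ℕ) (hq : q.Prime) :
    ∃ w : FinitePlace M, w.1 (q : M) < 1 := by
  have hne : Ideal.span {(q : 𝓞 M)} ≠ ⊤ := by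
    rw [Ne, Ideal.span_singleton_eq_top]
    intro hu
    have h1 : IsUnit (Algebra.norm ℤ (q : 𝓞 M)) := hu.map (Algebra.norm ℤ)
    have h2 : Algebra.norm ℤ (q : 𝓞 M) = (q : ℤ) ^ Module.finrank ℤ (𝓞 M) := by
      have := Algebra.norm_algebraMap (S := 𝓞 M) (q : ℤ)
      simpa using this
    rw [h2] at h1
    have h3 : 0 < Module.finrank ℤ (𝓞 M) := by
      rw [RingOfIntegers.rank]
      exact Module.finrank_pos
    have h4 : IsUnit (q : ℤ) := (isUnit_pow_iff h3.ne').1 h1
    exact hq.one_lt.ne' (by simpa using Int.isUnit_iff_natAbs_eq.1 h4)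
  obtain ⟨P, hP, hle⟩ := Ideal.exists_le_maximal _ hne
  have hqP : (q : 𝓞 M) ∈ P := hle (Ideal.mem_span_singleton_self _)
  have hbot : P ≠ ⊥ := by
    rintro rfl
    rw [Ideal.mem_bot] at hqP
    exact hq.ne_zero (by exact_mod_cast hqP)
  refine ⟨FinitePlace.mk ⟨P, hP.isPrime, hbot⟩, ?_⟩
  have h := (FinitePlace.norm_lt_one_iff_mem M ⟨P, hP.isPrime, hbot⟩ (q : 𝓞 M)).2 hqP
  have e : algebraMap (𝓞 M) M (q : 𝓞 M) = (q : M) := map_natCast _ _
  rw [e] at h
  exact h

/-- Totally ramified radicals over a field which is unramified. -/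
theorem ram_deg (hMXE : T_MXE) (hEXTP : Pool.Agent.H29.LG.T_EXTP) (K : IntermediateField ℚ Om)
    [NumberField K] (q k : ℕ) (hq : q.Prime) (hk : 1 ≤ k) (hK : Unr K q) (a : ℚ) (ha : a ≠ 0)
    (hu : padicValRat q a = 0) (hw : padicValRat q (a ^ (q - 1) - 1) = 1) (π : Om)
    (hπ : π ^ q ^ k = algebraMap ℚ Om a) :
    Module.finrank K (IntermediateField.adjoin K {π}) = q ^ k := by
  classical
  have hA : Algebra.IsAlgebraic K Om := isAlg K
  have hintK : IsIntegral K π := Algebra.IsIntegral.isIntegral π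
  set M : IntermediateField K Om := IntermediateField.adjoin K {π} with hM
  have hfM : FiniteDimensional K M := IntermediateField.adjoin.finiteDimensional hintK
  have hfQ : FiniteDimensional ℚ M := Module.Finite.trans K M
  have hNM : NumberField M := { to_charZero := inferInstance, to_finiteDimensional := hfQ }
  refine le_antisymm ?_ ?_
  · rw [hM, IntermediateField.adjoin.finrank hintK]
    have hdvd : minpoly K π ∣ (X ^ q ^ k - C (algebraMap ℚ K a) : K[X]) := by
      apply minpoly.dvd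
      simp only [map_sub, map_pow, aeval_X, aeval_C]
      rw [hπ, sub_eq_zero]
      rfl
    have hne : (X ^ q ^ k - C (algebraMap ℚ K a) : K[X]) ≠ 0 :=
      X_pow_sub_C_ne_zero (pow_pos hq.pos k) _
    refine (natDegree_le_of_dvd hdvd hne).trans ?_
    rw [natDegree_X_pow_sub_C]
  · have hπM : π ∈ M := IntermediateField.mem_adjoin_simple_self K π
    let πM : M := ⟨π, hπM⟩
    obtain ⟨v, hv⟩ := place_above K q hq
    obtain ⟨w, κ, hκ, hwv⟩ := hEXTP K M v
    have hwq : w.1 (q : M) = (v.1 (q : K)) ^ κ := by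
      have := hwv (q : K)
      rwa [map_natCast] at this
    have hv0 : 0 < v.1 (q : K) := v.1.pos (Nat.cast_ne_zero.2 hq.ne_zero)
    have hw1 : w.1 (q : M) < 1 := by
      rw [hwq]
      exact Real.rpow_lt_one hv0.le hv hκ
    have hw0 : 0 < w.1 (q : M) := w.1.pos (Nat.cast_ne_zero.2 hq.ne_zero)
    have hgood : GoodLv (r := 1) (fun _ => a) (fun _ => q ^ k) := by
      refine ⟨fun _ => ha, fun _ => pow_pos hq.pos k, fun i j hij => absurd (Subsingleton.elim i j) hij,
        fun _ q' hq' hd _ => ?_, fun _ q' hq' hd => ?_⟩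
      · have := (Nat.prime_dvd_prime_iff_eq hq' hq).1 (hq'.dvd_of_dvd_pow hd)
        rw [this]; exact hu
      · have := (Nat.prime_dvd_prime_iff_eq hq' hq).1 (hq'.dvd_of_dvd_pow hd)
        rw [this]; exact hw
    obtain ⟨f, hf⟩ := hMXE M 1 (fun _ => a) (fun _ => q ^ k) (fun _ => πM) hgood (fun _ => by
      apply Subtype.ext
      change π ^ q ^ k = _
      rw [hπ]
      rfl) q 0 k hq hk dvd_rfl (fun hd => by
        have := (Nat.pow_dvd_pow_iff_le_right hq.one_lt).1 hd
        omega)
    have hπ1 := hf w hw1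
    set π₁ : M := πM - πM ^ (q ^ k * q ^ f) with hπ₁
    have hqk : 0 < q ^ k := pow_pos hq.pos k
    have hwπ : w.1 π₁ = w.1 (q : M) ^ ((1 : ℝ) / (q ^ k : ℕ)) := by
      rw [← hπ1, ← Real.rpow_natCast, ← Real.rpow_mul (w.1.nonneg _)]
      rw [mul_one_div_cancel (Nat.cast_ne_zero.2 hqk.ne'), Real.rpow_one]
    have hli := Pool.Agent.H69.REM.pf_VLI K M w.1 (fun x y => w.add_le x y) (w.1 (q : M)) hw0 hw1
      (fun x hx => by
        obtain ⟨n, hn⟩ := hK v hv x hx
        refine ⟨n, ?_⟩
        rw [hwv x, hn, hwq, ← Real.rpow_intCast, ← Real.rpow_intCast, ← Real.rpow_mul hv0.le,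
          ← Real.rpow_mul hv0.le, mul_comm]) (Fin (q ^ k)) (fun j => π₁ ^ (j : ℕ))
      (fun j => (j : ℕ) / ((q ^ k : ℕ) : ℝ)) (fun j => by
        rw [map_pow, hwπ, ← Real.rpow_natCast, ← Real.rpow_mul hw0.le]
        congr 1
        ring) (fun i j hij n hn => by
        have hne : (i : ℕ) ≠ (j : ℕ) := fun h => hij (Fin.ext h)
        have hq0 : (0 : ℝ) < ((q ^ k : ℕ) : ℝ) := Nat.cast_pos.2 hqk
        rw [← sub_div, div_eq_iff hq0.ne'] at hn
        have h2 : ((i : ℕ) : ℤ) - ((j : ℕ) : ℤ) = n * ((q ^ k : ℕ) : ℤ) := by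
          exact_mod_cast hn
        have hi := i.isLt
        have hj := j.isLt
        have h3 : |((i : ℕ) : ℤ) - ((j : ℕ) : ℤ)| < ((q ^ k : ℕ) : ℤ) := by
          have hi' : ((i : ℕ) : ℤ) < ((q ^ k : ℕ) : ℤ) := by exact_mod_cast hi
          have hj' : ((j : ℕ) : ℤ) < ((q ^ k : ℕ) : ℤ) := by exact_mod_cast hj
          have hi'' : (0 : ℤ) ≤ ((i : ℕ) : ℤ) := Int.natCast_nonneg _
          have hj'' : (0 : ℤ) ≤ ((j : ℕ) : ℤ) := Int.natCast_nonneg _
          rw [abs_lt]
          constructor <;> linarith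
        rw [h2, abs_mul, abs_of_pos (a := ((q ^ k : ℕ) : ℤ)) (by exact_mod_cast hqk)] at h3
        have h4 : |n| < 1 := by
          by_contra hcon
          rw [not_lt] at hcon
          have h5 : (0 : ℤ) < ((q ^ k : ℕ) : ℤ) := by exact_mod_cast hqk
          nlinarith
        have h6 : n = 0 := Int.abs_lt_one_iff.1 h4
        rw [h6, zero_mul, sub_eq_zero] at h2
        exact hne (by exact_mod_cast h2))
    have := hli.fintype_card_le_finrank
    simpa using this

/-- The monomials of the box span the field of the radicals. -/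
theorem box_span {r : ℕ} (K : IntermediateField ℚ Om) (N : Fin r → ℕ) (c : Fin r → ℚ)
    (θ : Fin r → Om) (hN : ∀ i, 0 < N i) (hθ : ∀ i, θ i ^ N i = algebraMap ℚ Om (c i)) :
    ∀ x ∈ IntermediateField.adjoin K (Set.range θ),
      x ∈ Submodule.span K (Set.range fun j : (i : Fin r) → Fin (N i) => ∏ i, θ i ^ (j i : ℕ)) := by
  have hA : Algebra.IsAlgebraic K Om := isAlg K
  intro x hx
  have h1 : x ∈ Algebra.adjoin K (Set.range θ) := by
    rw [← IntermediateField.adjoin_toSubalgebra_of_isAlgebraic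
      (fun z _ => Algebra.IsAlgebraic.isAlgebraic z)]
    exact hx
  rw [Algebra.adjoin_range_eq_range_aeval] at h1
  obtain ⟨p, rfl⟩ := h1
  rw [AlgHom.toRingHom_eq_coe, RingHom.coe_coe, MvPolynomial.aeval_def, MvPolynomial.eval₂_eq']
  refine Submodule.sum_mem _ fun d _ => ?_
  rw [← Algebra.smul_def]
  refine Submodule.smul_mem _ _ ?_
  have h2 : ∏ i, θ i ^ d i = (∏ i, (algebraMap ℚ K (c i)) ^ (d i / N i)) •
      ∏ i, θ i ^ (d i % N i) := by
    rw [Algebra.smul_def, map_prod, ← Finset.prod_mul_distrib]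
    refine Finset.prod_congr rfl fun i _ => ?_
    rw [map_pow]
    have h3 : algebraMap K Om (algebraMap ℚ K (c i)) = θ i ^ N i := by
      rw [hθ i]; rfl
    rw [h3, ← pow_mul, ← pow_add, Nat.div_add_mod]
  rw [h2]
  refine Submodule.smul_mem _ _ (Submodule.subset_span ⟨fun i => ⟨d i % N i, Nat.mod_lt _ (hN i)⟩,
    rfl⟩)

theorem pf_DEGZ (hMXE : T_MXE) (hCYK : T_CYK) (hEXTP : Pool.Agent.H29.LG.T_EXTP) : T_DEGZ := by
  classical
  intro r a N hG θ hθ m hm hq2
  have hA : Algebra.IsAlgebraic (CY m) Om := isAlg (CY m)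
  set L : IntermediateField (CY m) Om := IntermediateField.adjoin (CY m) (Set.range θ) with hL
  have hfK : FiniteDimensional ℚ (CY m) := cy_fin m hm
  have hfL : FiniteDimensional (CY m) L :=
    IntermediateField.finiteDimensional_adjoin (fun x _ => (Algebra.IsIntegral.isIntegral x))
  have hfQL : FiniteDimensional ℚ L := Module.Finite.trans (CY m) L
  have hθL : ∀ i, θ i ∈ L := fun i => IntermediateField.subset_adjoin _ _ ⟨i, rfl⟩
  have hdegL : Module.finrank ℚ L = Module.finrank ℚ (CY m) * Module.finrank (CY m) L :=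
    (Module.finrank_mul_finrank ℚ (CY m) L).symm
  -- the key divisibility
  have key : ∀ (i : Fin r) (q k : ℕ), q.Prime → 1 ≤ k → q ^ k ∣ N i →
      q ^ k ∣ Module.finrank (CY m) L := by
    intro i q k hq hk hd
    have hqN : q ∣ N i := (dvd_pow_self q (by omega)).trans hd
    have hqn : q ∣ ∏ i, N i := hqN.trans (Finset.dvd_prod_of_mem N (Finset.mem_univ i))
    obtain ⟨e, he⟩ := hd
    set π : Om := θ i ^ e with hπ
    have hπe : π ^ q ^ k = algebraMap ℚ Om (a i) := by
      rw [hπ, ← pow_mul, mul_comm, ← he, hθ i]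
    -- the part prime to q
    obtain ⟨m'', hm''0, hqm'', hmdvd, htot⟩ : ∃ m'' : ℕ, 0 < m'' ∧ ¬ q ∣ m'' ∧ m'' ∣ m ∧
        (m.totient = m''.totient ∨ m.totient = (q - 1) * m''.totient) := by
      by_cases hqm : q ∣ m
      · obtain ⟨m'', rfl⟩ := hqm
        have hnd : ¬ q ∣ m'' := fun h => hq2 q hq hqn (by
          rw [pow_two]; exact Nat.mul_dvd_mul_left q h)
        refine ⟨m'', Nat.pos_of_mul_pos_left hm, hnd, Dvd.intro_left q rfl, Or.inr ?_⟩
        rw [Nat.totient_mul ((Nat.Prime.coprime_iff_not_dvd hq).2 hnd), Nat.totient_prime hq]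
      · exact ⟨m, hm, hqm, dvd_rfl, Or.inl rfl⟩
    have hfK'' : FiniteDimensional ℚ (CY m'') := cy_fin m'' hm''0
    have hNK'' : NumberField (CY m'') :=
      { to_charZero := inferInstance, to_finiteDimensional := hfK'' }
    have hUnr := (hCYK m'' (CY m'') hm''0 le_rfl q hq hqm'').2
    have hram := ram_deg hMXE hEXTP (CY m'') q k hq hk hUnr (a i) (hG.nz i)
      (hG.unit i q hq hqN i) (hG.wief i q hq hqN) π hπe
    set P : IntermediateField (CY m'') Om := IntermediateField.adjoin (CY m'') {π} with hP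
    have hA'' : Algebra.IsAlgebraic (CY m'') Om := isAlg (CY m'')
    have hfP : FiniteDimensional (CY m'') P :=
      IntermediateField.adjoin.finiteDimensional (Algebra.IsIntegral.isIntegral π)
    have hfQP : FiniteDimensional ℚ P := Module.Finite.trans (CY m'') P
    have hdegP : Module.finrank ℚ P = m''.totient * q ^ k := by
      rw [← Module.finrank_mul_finrank ℚ (CY m'') P, hram, cy_deg m'' hm''0]
    -- P is contained in L
    have hPL : P.restrictScalars ℚ ≤ L.restrictScalars ℚ := by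
      intro z hz
      have hz' : z ∈ P := hz
      have hle : P ≤ IntermediateField.extendScalars (F := CY m'')
          (E := L.restrictScalars ℚ) (by
            intro y hy
            have : y ∈ CY m := cy_mono hmdvd hy
            exact L.algebraMap_mem ⟨y, this⟩) := by
        rw [hP, IntermediateField.adjoin_le_iff]
        intro y hy
        rw [Set.mem_singleton_iff] at hy
        subst hy
        change θ i ^ e ∈ L
        exact pow_mem (hθL i) e
      exact hle hz'
    have hdvd : Module.finrank ℚ P ∣ Module.finrank ℚ L := by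
      have := IntermediateField.finrank_dvd_of_le_right hPL
      exact this
    rw [hdegP, hdegL, cy_deg m hm] at hdvd
    have ht0 : 0 < m''.totient := Nat.totient_pos.2 hm''0
    rcases htot with ht | ht
    · rw [ht] at hdvd
      exact Nat.dvd_of_mul_dvd_mul_left ht0 hdvd
    · rw [ht, mul_comm (q - 1), mul_assoc] at hdvd
      have h3 := Nat.dvd_of_mul_dvd_mul_left ht0 hdvd
      refine Nat.Coprime.dvd_of_dvd_mul_left ?_ h3
      refine Nat.Coprime.pow_left k ?_
      have h4 : 0 < q - 1 := Nat.sub_pos_of_lt hq.one_lt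
      rw [hq.coprime_iff_not_dvd]
      intro h5
      exact absurd (Nat.le_of_dvd h4 h5) (by have := hq.one_lt; omega)
  have hNd : ∀ i, N i ∣ Module.finrank (CY m) L := by
    intro i
    rw [Nat.dvd_iff_prime_pow_dvd_dvd]
    intro q k hq hd
    rcases Nat.eq_zero_or_pos k with rfl | hk
    · simp
    · exact key i q k hq hk hd
  have hprod : ∏ i, N i ∣ Module.finrank (CY m) L := by
    refine Finset.prod_dvd_of_isRelPrime ?_ (fun i _ => hNd i)
    intro i _ j _ hij
    exact Nat.coprime_iff_isRelPrime.1 (hG.cop i j hij)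
  have hpos : 0 < Module.finrank (CY m) L := Module.finrank_pos
  have hcard : ∏ i, N i ≤ Module.finrank (CY m) L := Nat.le_of_dvd hpos hprod
  -- the monomials span
  let θL : Fin r → L := fun i => ⟨θ i, hθL i⟩
  have hspan : (⊤ : Submodule (CY m) L) ≤ Submodule.span (CY m)
      (Set.range fun j : (i : Fin r) → Fin (N i) => ∏ i, θL i ^ (j i : ℕ)) := by
    intro x _
    have h1 := box_span (CY m) N a θ hG.pos hθ x x.2
    have h2 : Submodule.span (CY m) (Set.range fun j : (i : Fin r) → Fin (N i) =>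
        ∏ i, θ i ^ (j i : ℕ)) = (Submodule.span (CY m)
        (Set.range fun j : (i : Fin r) → Fin (N i) => ∏ i, θL i ^ (j i : ℕ))).map
          L.val.toLinearMap := by
      rw [Submodule.map_span, ← Set.range_comp]
      congr 1
      congr 1
      funext j
      simp [θL]
    rw [h2] at h1
    obtain ⟨y, hy, hyx⟩ := h1
    have : y = x := Subtype.ext hyx
    rwa [this] at hy
  have hcardle : Module.finrank (CY m) L ≤ ∏ i, N i := by
    have h1 := finrank_range_le_card (R := CY m)
      (fun j : (i : Fin r) → Fin (N i) => ∏ i, θL i ^ (j i : ℕ))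
    rw [Set.finrank] at h1
    rw [top_le_iff.1 hspan, finrank_top] at h1
    simpa [Fintype.card_pi] using h1
  have hli : LinearIndependent (CY m)
      (fun j : (i : Fin r) → Fin (N i) => ∏ i, θL i ^ (j i : ℕ)) := by
    refine linearIndependent_of_top_le_span_of_card_eq_finrank hspan ?_
    rw [le_antisymm hcardle hcard]
    simp [Fintype.card_pi]
  have h3 := hli.map' L.val.toLinearMap (LinearMap.ker_eq_bot.2 Subtype.val_injective)
  have h4 : (L.val.toLinearMap ∘
      (fun j : (i : Fin r) → Fin (N i) => ∏ i, θL i ^ (j i : ℕ))) =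
      (fun j : (i : Fin r) → Fin (N i) => ∏ i, θ i ^ (j i : ℕ)) := by
    funext j
    simp [θL]
  rw [h4] at h3
  exact h3

end Pool.Agent.H29.GG
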