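import Pool.Agent.H64.GG.TC

set_option autoImplicit false

/-!
# Extension of automorphisms to independent radicals
-/

namespace Pool.Agent.H29.GG

open NumberField Height Finset Polynomial Pool.Agent.H24.RD Pool.Agent.H23.RDD Pool.Agent.H29.RQ
  Pool.Agent.H29.SX Pool.Agent.H29.LG Pool.Agent.H64.GG

/-- The algebraic closure is algebraic over every intermediate field. -/
theorem isAlg (K : IntermediateField ℚ Om) : Algebra.IsAlgebraic K Om := by
  have h0 : Algebra.IsAlgebraic ℚ Om := AlgebraicClosure.isAlgebraic ℚ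
  exact Algebra.IsAlgebraic.tower_top (K := ℚ) (L := K) (A := Om)

/-- An algebra homomorphism from an intermediate field extends to an automorphism. -/
theorem ext_hom (K : IntermediateField ℚ Om) (L : IntermediateField K Om) (φ : L →ₐ[K] Om) :
    ∃ τ : Om ≃ₐ[ℚ] Om, (∀ z ∈ K, τ z = z) ∧ ∀ z : L, τ (z : Om) = φ z := by
  have hA : Algebra.IsAlgebraic K Om := isAlg K
  have : IsAlgClosure K Om := ⟨inferInstance, inferInstance⟩
  have : Normal K Om := IsAlgClosure.normal K Om
  let ψ : Om →ₐ[K] Om := AlgHom.liftNormal φ Om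
  have hψ : ∀ z : L, ψ (z : Om) = φ z := fun z => AlgHom.liftNormal_commutes φ Om z
  have hb : Function.Bijective ψ := Algebra.IsAlgebraic.algHom_bijective ψ
  refine ⟨(AlgEquiv.ofBijective ψ hb).restrictScalars ℚ, fun z hz => ?_, fun z => ?_⟩
  · have := ψ.commutes ⟨z, hz⟩
    exact this
  · exact hψ z

/-- Independent radicals may be sent to arbitrary roots. -/
theorem ext_one {r : ℕ} (N : Fin r → ℕ) (c : Fin r → ℚ) (θ : Fin r → Om)
    (K : IntermediateField ℚ Om) (hN : ∀ i, 0 < N i)
    (hθ : ∀ i, θ i ^ N i = algebraMap ℚ Om (c i)) (hI : Ind K θ N)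
    (θ' : Fin r → Om) (hθ' : ∀ i, θ' i ^ N i = algebraMap ℚ Om (c i)) :
    ∃ τ : Om ≃ₐ[ℚ] Om, (∀ z ∈ K, τ z = z) ∧ ∀ i, τ (θ i) = θ' i := by
  classical
  have hA : Algebra.IsAlgebraic K Om := isAlg K
  let L : IntermediateField K Om := IntermediateField.adjoin K (Set.range θ)
  have hmem : ∀ i, θ i ∈ L := fun i => IntermediateField.subset_adjoin K _ ⟨i, rfl⟩
  let θL : Fin r → L := fun i => ⟨θ i, hmem i⟩
  have : FiniteDimensional K L :=
    IntermediateField.finiteDimensional_adjoin (fun x _ => (Algebra.IsIntegral.isIntegral x))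
  have hli : LinearIndependent K (fun j : (i : Fin r) → Fin (N i) => ∏ i, θL i ^ (j i : ℕ)) := by
    have h1 : LinearIndependent K
        (L.val.toLinearMap ∘ (fun j : (i : Fin r) → Fin (N i) => ∏ i, θL i ^ (j i : ℕ))) := by
      have h2 : (L.val.toLinearMap ∘
          (fun j : (i : Fin r) → Fin (N i) => ∏ i, θL i ^ (j i : ℕ))) =
          (fun j : (i : Fin r) → Fin (N i) => ∏ i, θ i ^ (j i : ℕ)) := by
        funext j
        simp [θL]
      rw [h2]
      exact hI
    exact LinearIndependent.of_comp _ h1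
  have hcard : ∏ i, N i ≤ Module.finrank K L := by
    have := hli.fintype_card_le_finrank
    simpa [Fintype.card_pi] using this
  have hhom : Fintype.card (L →ₐ[K] Om) = Module.finrank K L := AlgHom.card K L Om
  let f : (L →ₐ[K] Om) → (Fin r → Om) := fun φ i => φ (θL i)
  have hinj : Function.Injective f := by
    intro φ ψ h
    refine IntermediateField.algHom_ext_of_eq_adjoin _ (S := L) (s := Set.range θ) rfl ?_
    rintro x ⟨i, rfl⟩
    exact congrFun h i
  let T : Finset (Fin r → Om) :=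
    Fintype.piFinset (fun i => (nthRoots (N i) (algebraMap ℚ Om (c i))).toFinset)
  have hT : T.card ≤ ∏ i, N i := by
    rw [Fintype.card_piFinset]
    exact Finset.prod_le_prod' fun i _ => (Multiset.toFinset_card_le _).trans (card_nthRoots _ _)
  have hsub : Finset.image f Finset.univ ⊆ T := by
    intro y hy
    obtain ⟨φ, -, rfl⟩ := Finset.mem_image.1 hy
    rw [Fintype.mem_piFinset]
    intro i
    rw [Multiset.mem_toFinset, mem_nthRoots (hN i)]
    have h1 : (θL i) ^ N i = algebraMap K L (algebraMap ℚ K (c i)) := by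
      apply Subtype.ext
      simpa [θL] using hθ i
    have h2 : φ (θL i) ^ N i = φ (algebraMap K L (algebraMap ℚ K (c i))) := by
      rw [← map_pow, h1]
    change φ (θL i) ^ N i = _
    rw [h2, φ.commutes]
    rfl
  have heq : Finset.image f Finset.univ = T := by
    refine Finset.eq_of_subset_of_card_le hsub ?_
    rw [Finset.card_image_of_injective _ hinj, Finset.card_univ, hhom]
    exact hT.trans hcard
  have hmemT : θ' ∈ T := by
    rw [Fintype.mem_piFinset]
    intro i
    rw [Multiset.mem_toFinset, mem_nthRoots (hN i)]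
    exact hθ' i
  rw [← heq] at hmemT
  obtain ⟨φ, -, hφ⟩ := Finset.mem_image.1 hmemT
  obtain ⟨τ, h1, h2⟩ := ext_hom K L φ
  refine ⟨τ, h1, fun i => ?_⟩
  have := h2 (θL i)
  rw [← hφ]
  exact this

/-- The general form: the restriction to `K` and the images of the radicals are prescribed. -/
theorem ext_pt {r : ℕ} (N : Fin r → ℕ) (c : Fin r → ℚ) (θ : Fin r → Om)
    (K : IntermediateField ℚ Om) (hN : ∀ i, 0 < N i)
    (hθ : ∀ i, θ i ^ N i = algebraMap ℚ Om (c i)) (hI : Ind K θ N) (σ : Om ≃ₐ[ℚ] Om)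
    (θ' : Fin r → Om) (hθ' : ∀ i, θ' i ^ N i = algebraMap ℚ Om (c i)) :
    ∃ τ : Om ≃ₐ[ℚ] Om, (∀ z ∈ K, τ z = σ z) ∧ ∀ i, τ (θ i) = θ' i := by
  obtain ⟨τ, h1, h2⟩ := ext_one N c θ K hN hθ hI (fun i => σ.symm (θ' i)) (fun i => by
    rw [← map_pow, hθ' i, AlgEquiv.commutes])
  refine ⟨τ.trans σ, fun z hz => ?_, fun i => ?_⟩
  · rw [AlgEquiv.trans_apply, h1 z hz]
  · rw [AlgEquiv.trans_apply, h2 i, AlgEquiv.apply_symm_apply]

end Pool.Agent.H29.GG
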