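import Pool.Agent.H64.GG.TC

set_option autoImplicit false

/-!
# Row MINP: minimality of the number of conjugates
-/

namespace Pool.Agent.H29.GG

open NumberField Height Finset Polynomial Pool.Agent.H24.RD Pool.Agent.H23.RDD Pool.Agent.H29.RQ
  Pool.Agent.H29.SX Pool.Agent.H29.LG Pool.Agent.H64.GG

theorem GF_mono {r : ℕ} (θ : Fin r → Om) {m m₂ : ℕ} (h : m ∣ m₂) : GF θ m ≤ GF θ m₂ := by
  unfold GF
  apply IntermediateField.adjoin.mono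
  refine Set.union_subset_union_left _ ?_
  intro z hz
  obtain ⟨k, rfl⟩ := h
  change z ^ (m * k) = 1
  have hz' : z ^ m = 1 := hz
  rw [pow_mul, hz', one_pow]

theorem pf_MINP : T_MINP := by
  classical
  intro r a N θ m d β g E _ hβ hE hCj hRed hg hmin m₂ hm₂ hmm hcop
  obtain ⟨s, hs1, hs2⟩ := hCj
  have hle : GF θ m ≤ GF θ m₂ := GF_mono θ hmm
  have hfix : ∀ σ : Om ≃ₐ[ℚ] Om, (∀ z ∈ GF θ m₂, σ z = z) → ∀ z ∈ E, σ z = z :=
    fun σ hσ z hz => hσ z (hle (hE hz))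
  set X := s.filter (fun y => ∃ σ : Om ≃ₐ[ℚ] Om, (∀ z ∈ E, σ z = z) ∧ σ β = y) with hX
  set Y := X.filter (fun y => ∃ σ : Om ≃ₐ[ℚ] Om, (∀ z ∈ GF θ m₂, σ z = z) ∧ σ β = y) with hY
  have hmemY : ∀ σ : Om ≃ₐ[ℚ] Om, (∀ z ∈ GF θ m₂, σ z = z) → σ β ∈ Y := by
    intro σ hσ
    rw [hY, Finset.mem_filter, hX, Finset.mem_filter]
    exact ⟨⟨hs2 σ (hfix σ hσ), σ, hfix σ hσ, rfl⟩, σ, hσ, rfl⟩
  have hC : Cj ℚ Om (GF θ m₂) Y.card β := ⟨Y, le_rfl, hmemY⟩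
  have hR : Red ℚ Om (GF θ m₂) β := fun σ hσ => hRed σ (hfix σ hσ)
  have hd : d ≤ Y.card := hmin m₂ Y.card hm₂ hcop ⟨β, hβ, hC, hR, g, hg, rfl⟩
  have hXd : X.card ≤ d := (Finset.card_filter_le _ _).trans hs1
  have hYX : Y = X := Finset.eq_of_subset_of_card_le (Finset.filter_subset _ _) (hXd.trans hd)
  have hset : {y : Om | ∃ σ : Om ≃ₐ[ℚ] Om, (∀ z ∈ GF θ m₂, σ z = z) ∧ σ β = y} = (Y : Set Om) := by
    ext y
    constructor
    · rintro ⟨σ, hσ, rfl⟩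
      exact hmemY σ hσ
    · intro hy
      have hy' : y ∈ Y := hy
      rw [hY, Finset.mem_filter] at hy'
      exact hy'.2
  refine ⟨?_, fun σ hσ => ?_⟩
  · unfold cc
    rw [hset, Set.ncard_coe_finset]
    exact le_antisymm (hYX ▸ hXd) hd
  · have hmem : σ β ∈ X := by
      rw [hX, Finset.mem_filter]
      exact ⟨hs2 σ hσ, σ, hσ, rfl⟩
    rw [← hYX, hY, Finset.mem_filter] at hmem
    exact hmem.2

end Pool.Agent.H29.GG
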