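import Pool.Agent.H29.GG.Ext

set_option autoImplicit false

/-!
# Row REM: removal of a few primes
-/

namespace Pool.Agent.H29.GG

open NumberField Height Finset Polynomial Pool.Agent.H24.RD Pool.Agent.H23.RDD Pool.Agent.H29.RQ
  Pool.Agent.H29.SX Pool.Agent.H29.LG Pool.Agent.H64.GG

/-- Automorphisms with a prescribed action on the roots of unity. -/
theorem root_aut (M a : ℕ) (hM : 0 < M) (ha : a.Coprime M) :
    ∃ σ : Om ≃ₐ[ℚ] Om, ∀ z : Om, z ^ M = 1 → σ z = z ^ a := by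
  have h0 : Algebra.IsAlgebraic ℚ Om := AlgebraicClosure.isAlgebraic ℚ
  have hcl : IsAlgClosure ℚ Om := ⟨inferInstance, h0⟩
  have hn : Normal ℚ Om := IsAlgClosure.normal ℚ Om
  have hM0 : NeZero (M : Om) := ⟨Nat.cast_ne_zero.2 hM.ne'⟩
  have hM1 : NeZero M := ⟨hM.ne'⟩
  obtain ⟨ζ, hζ⟩ := HasEnoughRootsOfUnity.exists_primitiveRoot Om M
  have hζa : IsPrimitiveRoot (ζ ^ a) M := hζ.pow_of_coprime a ha
  have hc : IsConjRoot ℚ (ζ ^ a) ζ := by
    have h1 := Polynomial.cyclotomic_eq_minpoly_rat hζ hM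
    have h2 := Polynomial.cyclotomic_eq_minpoly_rat hζa hM
    unfold IsConjRoot
    rw [← h1, ← h2]
  obtain ⟨σ, hσ⟩ := isConjRoot_iff_exists_algEquiv.1 hc
  refine ⟨σ, fun z hz => ?_⟩
  obtain ⟨i, -, rfl⟩ := hζ.eq_pow_of_pow_eq_one hz
  rw [map_pow, hσ, ← pow_mul, ← pow_mul, mul_comm]

/-- The automorphisms which fix the radicals, the `m`-th roots of unity and the `q`-th roots of
unity for `q` in `U`. -/
def Fx {r : ℕ} (θ : Fin r → Om) (m : ℕ) (U : Finset ℕ) (σ : Om ≃ₐ[ℚ] Om) : Prop :=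
  (∀ i, σ (θ i) = θ i) ∧ (∀ z : Om, z ^ m = 1 → σ z = z) ∧ ∀ q ∈ U, ∀ z : Om, z ^ q = 1 → σ z = z

theorem fix_mul (σ : Om ≃ₐ[ℚ] Om) (a b : ℕ) (hab : a.Coprime b)
    (ha : ∀ z : Om, z ^ a = 1 → σ z = z) (hb : ∀ z : Om, z ^ b = 1 → σ z = z) :
    ∀ z : Om, z ^ (a * b) = 1 → σ z = z := by
  intro z hz
  by_cases hz0 : z = 0
  · simp [hz0]
  have h1 : σ (z ^ b) = z ^ b := ha _ (by rw [← pow_mul, mul_comm]; exact hz)
  have h2 : σ (z ^ a) = z ^ a := hb _ (by rw [← pow_mul]; exact hz)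
  have h3 : z = (z ^ a) ^ (a.gcdA b) * (z ^ b) ^ (a.gcdB b) := by
    rw [← zpow_natCast z a, ← zpow_natCast z b, ← zpow_mul, ← zpow_mul, ← zpow_add₀ hz0,
      ← Nat.gcd_eq_gcd_ab, hab.gcd_eq_one]
    simp
  rw [h3, map_mul, map_zpow₀, map_zpow₀, h1, h2]

theorem fix_prod (σ : Om ≃ₐ[ℚ] Om) (m : ℕ) (U : Finset ℕ) (hU : ∀ p ∈ U, p.Prime ∧ ¬ p ∣ m)
    (hm : ∀ z : Om, z ^ m = 1 → σ z = z) (hq : ∀ q ∈ U, ∀ z : Om, z ^ q = 1 → σ z = z) :
    ∀ z : Om, z ^ (m * ∏ p ∈ U, p) = 1 → σ z = z := by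
  classical
  induction U using Finset.induction_on with
  | empty => simpa using hm
  | insert p U hp ih =>
    intro z hz
    have h1 := ih (fun q hq' => hU q (Finset.mem_insert_of_mem hq'))
      (fun q hq' => hq q (Finset.mem_insert_of_mem hq'))
    have hpp := hU p (Finset.mem_insert_self _ _)
    have hcop : (m * ∏ q ∈ U, q).Coprime p := by
      rw [Nat.coprime_comm, hpp.1.coprime_iff_not_dvd, hpp.1.dvd_mul]
      rintro (h | h)
      · exact hpp.2 h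
      · rw [hpp.1.prime.dvd_finsetProd_iff] at h
        obtain ⟨q, hq', hd⟩ := h
        rw [Nat.prime_dvd_prime_iff_eq hpp.1 (hU q (Finset.mem_insert_of_mem hq')).1] at hd
        exact hp (hd ▸ hq')
    refine fix_mul σ _ p hcop h1 (hq p (Finset.mem_insert_self _ _)) z ?_
    rw [Finset.prod_insert hp] at hz
    rw [← hz]
    congr 1
    ring

theorem fx_iff {r : ℕ} (θ : Fin r → Om) (m : ℕ) (U : Finset ℕ) (hU : ∀ p ∈ U, p.Prime ∧ ¬ p ∣ m)
    (σ : Om ≃ₐ[ℚ] Om) : Fx θ m U σ ↔ ∀ z ∈ GF θ (m * ∏ p ∈ U, p), σ z = z := by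
  constructor
  · rintro ⟨h1, h2, h3⟩ z hz
    have h4 := fix_prod σ m U hU h2 h3
    have hle : GF θ (m * ∏ p ∈ U, p) ≤
        IntermediateField.fixedField (Subgroup.zpowers (G := Om ≃ₐ[ℚ] Om) σ) := by
      unfold GF
      rw [IntermediateField.adjoin_le_iff]
      intro x hx
      have hfix : σ x = x := by
        rcases hx with hx | ⟨i, rfl⟩
        · exact h4 x hx
        · exact h1 i
      simp only [SetLike.mem_coe, IntermediateField.mem_fixedField_iff]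
      intro τ hτ
      obtain ⟨k, rfl⟩ := Subgroup.mem_zpowers_iff.1 hτ
      have hst : σ ∈ MulAction.stabilizer (Om ≃ₐ[ℚ] Om) x := hfix
      exact Subgroup.zpow_mem _ hst k
    have := hle hz
    rw [IntermediateField.mem_fixedField_iff] at this
    exact this σ (Subgroup.mem_zpowers σ)
  · intro h
    refine ⟨fun i => h _ (IntermediateField.subset_adjoin _ _ (Or.inr ⟨i, rfl⟩)),
      fun z hz => h _ (IntermediateField.subset_adjoin _ _ (Or.inl ?_)),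
      fun q hq z hz => h _ (IntermediateField.subset_adjoin _ _ (Or.inl ?_))⟩
    · change z ^ (m * ∏ p ∈ U, p) = 1
      rw [pow_mul, hz, one_pow]
    · change z ^ (m * ∏ p ∈ U, p) = 1
      obtain ⟨k, hk⟩ := Finset.dvd_prod_of_mem (fun p : ℕ => p) hq
      rw [hk, show m * (q * k) = q * (m * k) by ring, pow_mul, hz, one_pow]

/-- The orbit. -/
def XX {r : ℕ} (θ : Fin r → Om) (β : Om) (m : ℕ) (U : Finset ℕ) : Set Om :=
  {y | ∃ σ : Om ≃ₐ[ℚ] Om, Fx θ m U σ ∧ σ β = y}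

theorem cc_eq {r : ℕ} (θ : Fin r → Om) (β : Om) (m : ℕ) (U : Finset ℕ)
    (hU : ∀ p ∈ U, p.Prime ∧ ¬ p ∣ m) : cc (GF θ (m * ∏ p ∈ U, p)) β = (XX θ β m U).ncard := by
  unfold cc XX
  congr 1
  ext y
  simp only [Set.mem_ofPred_eq]
  constructor
  · rintro ⟨σ, h, rfl⟩
    exact ⟨σ, (fx_iff θ m U hU σ).2 h, rfl⟩
  · rintro ⟨σ, h, rfl⟩
    exact ⟨σ, (fx_iff θ m U hU σ).1 h, rfl⟩

theorem XX_fin {r : ℕ} (θ : Fin r → Om) (β : Om) (m : ℕ) (U : Finset ℕ) :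
    (XX θ β m U).Finite := by
  have h0 : Algebra.IsAlgebraic ℚ Om := AlgebraicClosure.isAlgebraic ℚ
  have hint : IsIntegral ℚ β := Algebra.IsIntegral.isIntegral β
  refine Set.Finite.subset ((minpoly ℚ β).rootSet_finite Om) ?_
  rintro y ⟨σ, -, rfl⟩
  rw [Polynomial.mem_rootSet]
  refine ⟨minpoly.ne_zero hint, ?_⟩
  have h1 := Polynomial.aeval_algHom_apply (σ : Om →ₐ[ℚ] Om) β (minpoly ℚ β)
  rw [minpoly.aeval, map_zero] at h1
  exact h1

theorem XX_mono {r : ℕ} (θ : Fin r → Om) (β : Om) (m : ℕ) {U V : Finset ℕ} (h : U ⊆ V) :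
    XX θ β m V ⊆ XX θ β m U := by
  rintro y ⟨σ, ⟨h1, h2, h3⟩, rfl⟩
  exact ⟨σ, ⟨h1, h2, fun q hq => h3 q (h hq)⟩, rfl⟩

theorem Fx_mul {r : ℕ} {θ : Fin r → Om} {m : ℕ} {U : Finset ℕ} {σ τ : Om ≃ₐ[ℚ] Om}
    (h1 : Fx θ m U σ) (h2 : Fx θ m U τ) : Fx θ m U (σ * τ) := by
  refine ⟨fun i => ?_, fun z hz => ?_, fun q hq z hz => ?_⟩
  · rw [AlgEquiv.mul_apply, h2.1, h1.1]
  · rw [AlgEquiv.mul_apply, h2.2.1 z hz, h1.2.1 z hz]
  · rw [AlgEquiv.mul_apply, h2.2.2 q hq z hz, h1.2.2 q hq z hz]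

theorem Fx_inv {r : ℕ} {θ : Fin r → Om} {m : ℕ} {U : Finset ℕ} {σ : Om ≃ₐ[ℚ] Om}
    (h1 : Fx θ m U σ) : Fx θ m U σ⁻¹ := by
  have key : ∀ z : Om, σ z = z → σ⁻¹ z = z := fun z hz => by
    have : σ⁻¹ (σ z) = z := by
      rw [← AlgEquiv.mul_apply, inv_mul_cancel, AlgEquiv.one_apply]
    rwa [hz] at this
  exact ⟨fun i => key _ (h1.1 i), fun z hz => key _ (h1.2.1 z hz),
    fun q hq z hz => key _ (h1.2.2 q hq z hz)⟩

theorem Fx_conj {r : ℕ} {θ : Fin r → Om} {m : ℕ} {U V : Finset ℕ} {σ τ : Om ≃ₐ[ℚ] Om}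
    (h1 : Fx θ m U σ) (h2 : Fx θ m V τ) : Fx θ m U (τ * σ * τ⁻¹) := by
  have hrt : ∀ (n : ℕ) (z : Om), z ^ n = 1 → (τ⁻¹ z) ^ n = 1 := fun n z hz => by
    rw [← map_pow, hz, map_one]
  have hcan : ∀ z : Om, τ (τ⁻¹ z) = z := fun z => by
    rw [← AlgEquiv.mul_apply, mul_inv_cancel, AlgEquiv.one_apply]
  refine ⟨fun i => ?_, fun z hz => ?_, fun q hq z hz => ?_⟩
  · rw [AlgEquiv.mul_apply, AlgEquiv.mul_apply, (Fx_inv h2).1, h1.1, h2.1]
  · rw [AlgEquiv.mul_apply, AlgEquiv.mul_apply, h1.2.1 _ (hrt m z hz), hcan]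
  · rw [AlgEquiv.mul_apply, AlgEquiv.mul_apply, h1.2.2 q hq _ (hrt q z hz), hcan]

/-- Either the orbits agree or the larger one has at least twice as many elements. -/
theorem XX_two {r : ℕ} (θ : Fin r → Om) (β : Om) (m : ℕ) {U V : Finset ℕ} (h : U ⊆ V)
    (hne : XX θ β m U ≠ XX θ β m V) : 2 * (XX θ β m V).ncard ≤ (XX θ β m U).ncard := by
  have hsub := XX_mono θ β m h
  obtain ⟨y, hy, hy'⟩ : ∃ y ∈ XX θ β m U, y ∉ XX θ β m V := by
    by_contra hcon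
    push Not at hcon
    exact hne (Set.Subset.antisymm hcon hsub)
  obtain ⟨τ, hτ, rfl⟩ := hy
  have himg : (fun z => τ z) '' XX θ β m V ⊆ XX θ β m U := by
    rintro z ⟨w, hw, rfl⟩
    obtain ⟨ρ, hρ, rfl⟩ := hsub hw
    exact ⟨τ * ρ, Fx_mul hτ hρ, rfl⟩
  have hdis : Disjoint (XX θ β m V) ((fun z => τ z) '' XX θ β m V) := by
    rw [Set.disjoint_left]
    rintro z ⟨ρ', hρ', rfl⟩ ⟨w, ⟨ρ, hρ, rfl⟩, hw⟩
    apply hy'
    have h1 : Fx θ m V (τ * ρ * τ⁻¹) := Fx_conj hρ hτ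
    refine ⟨(τ * ρ * τ⁻¹)⁻¹ * ρ', Fx_mul (Fx_inv h1) hρ', ?_⟩
    rw [AlgEquiv.mul_apply, ← hw]
    simp only [mul_inv_rev, inv_inv, AlgEquiv.mul_apply]
    have hcan : ∀ (κ : Om ≃ₐ[ℚ] Om) (z : Om), κ⁻¹ (κ z) = z := fun κ z => by
      rw [← AlgEquiv.mul_apply, inv_mul_cancel, AlgEquiv.one_apply]
    rw [hcan, hcan]
  have hcard : ((fun z => τ z) '' XX θ β m V).ncard = (XX θ β m V).ncard :=
    Set.ncard_image_of_injective _ τ.injective
  calc 2 * (XX θ β m V).ncard = (XX θ β m V).ncard + ((fun z => τ z) '' XX θ β m V).ncard := by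
        rw [hcard]; ring
    _ = (XX θ β m V ∪ (fun z => τ z) '' XX θ β m V).ncard :=
        (Set.ncard_union_eq hdis (XX_fin θ β m V) ((XX_fin θ β m V).image _)).symm
    _ ≤ (XX θ β m U).ncard :=
        Set.ncard_le_ncard (Set.union_subset hsub himg) (XX_fin θ β m U)

/-- An automorphism which fixes the radicals and acts on the `p`-th roots of unity like `σ` and
trivially on the other roots. -/
theorem sig_p {r : ℕ} (N : Fin r → ℕ) (c : Fin r → ℚ) (θ : Fin r → Om) (m : ℕ) (S : Finset ℕ)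
    (hm : 0 < m) (hN : ∀ i, 0 < N i) (hθ : ∀ i, θ i ^ N i = algebraMap ℚ Om (c i))
    (hS : ∀ p ∈ S, p.Prime ∧ ¬ p ∣ m) (hI : Ind (CY (m * ∏ p ∈ S, p)) θ N) (p : ℕ) (hp : p ∈ S)
    (σ : Om ≃ₐ[ℚ] Om) :
    ∃ τ : Om ≃ₐ[ℚ] Om, Fx θ m (S.erase p) τ ∧ ∀ z : Om, z ^ p = 1 → τ z = σ z := by
  classical
  have hpp := hS p hp
  have hp0 : NeZero p := ⟨hpp.1.ne_zero⟩
  set M' : ℕ := m * ∏ q ∈ S.erase p, q with hM'
  have hprod : m * ∏ q ∈ S, q = p * M' := by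
    rw [hM', ← Finset.mul_prod_erase S (fun q => q) hp]
    ring
  have hM'0 : 0 < M' := by
    rw [hM']
    refine Nat.mul_pos hm (Finset.prod_pos fun q hq => (hS q (Finset.mem_of_mem_erase hq)).1.pos)
  have hcop : p.Coprime M' := by
    rw [hpp.1.coprime_iff_not_dvd, hM', hpp.1.dvd_mul]
    rintro (h | h)
    · exact hpp.2 h
    · rw [hpp.1.prime.dvd_finsetProd_iff] at h
      obtain ⟨q, hq', hd⟩ := h
      rw [Nat.prime_dvd_prime_iff_eq hpp.1 (hS q (Finset.mem_of_mem_erase hq')).1] at hd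
      exact Finset.ne_of_mem_erase hq' hd.symm
  have hp1 : NeZero (p : Om) := ⟨Nat.cast_ne_zero.2 hpp.1.ne_zero⟩
  obtain ⟨ζ, hζ⟩ := HasEnoughRootsOfUnity.exists_primitiveRoot Om p
  have hσζ : (σ ζ) ^ p = 1 := by rw [← map_pow, hζ.pow_eq_one, map_one]
  obtain ⟨b, hb, hbe⟩ := hζ.eq_pow_of_pow_eq_one hσζ
  have hbc : b.Coprime p := by
    rw [Nat.coprime_comm, hpp.1.coprime_iff_not_dvd]
    intro hd
    have h1 : ζ ^ b = 1 := (hζ.pow_eq_one_iff_dvd b).2 hd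
    rw [h1] at hbe
    have h2 : ζ = 1 := by
      apply σ.injective
      rw [map_one, ← hbe]
    exact hpp.1.one_lt.ne' (hζ.unique (h2 ▸ IsPrimitiveRoot.one))
  obtain ⟨a, ha1, ha2⟩ := Nat.chineseRemainder hcop b 1
  have hac : a.Coprime (m * ∏ q ∈ S, q) := by
    rw [hprod]
    refine Nat.Coprime.mul_right ?_ ?_
    · rw [Nat.coprime_iff_gcd_eq_one, ha1.gcd_eq]
      exact hbc
    · rw [Nat.coprime_iff_gcd_eq_one, ha2.gcd_eq]
      simp
  have hMpos : 0 < m * ∏ q ∈ S, q := by rw [hprod]; exact Nat.mul_pos hpp.1.pos hM'0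
  obtain ⟨σ₀, hσ₀⟩ := root_aut _ a hMpos hac
  obtain ⟨τ, hτ1, hτ2⟩ := ext_pt N c θ (CY (m * ∏ q ∈ S, q)) hN hθ hI σ₀ θ hθ
  have hrt : ∀ z : Om, z ^ (m * ∏ q ∈ S, q) = 1 → τ z = z ^ a := fun z hz => by
    rw [hτ1 z (IntermediateField.subset_adjoin _ _ hz), hσ₀ z hz]
  have hrt' : ∀ z : Om, z ^ M' = 1 → τ z = z := fun z hz => by
    rw [hrt z (by rw [hprod, mul_comm, pow_mul, hz, one_pow])]
    have h1 : z ^ a = z ^ 1 := by
      have hz0 : z ≠ 0 := by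
        rintro rfl
        rw [zero_pow hM'0.ne'] at hz
        exact zero_ne_one hz
      have := ha2
      exact pow_eq_pow_of_modEq this hz
    rw [h1, pow_one]
  refine ⟨τ, ⟨hτ2, fun z hz => hrt' z (by rw [hM', pow_mul, hz, one_pow]), fun q hq z hz =>
    hrt' z ?_⟩, fun z hz => ?_⟩
  · obtain ⟨k, hk⟩ := Finset.dvd_prod_of_mem (fun q : ℕ => q) hq
    rw [hM', hk, show m * (q * k) = q * (m * k) by ring, pow_mul, hz, one_pow]
  · rw [hrt z (by rw [hprod, pow_mul, hz, one_pow])]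
    obtain ⟨i, -, rfl⟩ := hζ.eq_pow_of_pow_eq_one hz
    rw [map_pow, ← hbe, ← pow_mul, ← pow_mul]
    have h2 : i * a ≡ b * i [MOD p] := by
      rw [mul_comm b i]
      exact Nat.ModEq.mul_left i ha1
    exact pow_eq_pow_of_modEq h2 hζ.pow_eq_one

/-- If the orbit does not grow when a prime is removed then it is the full orbit. -/
theorem XX_full {r : ℕ} (N : Fin r → ℕ) (c : Fin r → ℚ) (θ : Fin r → Om) (β : Om) (m : ℕ)
    (S : Finset ℕ) (hm : 0 < m) (hN : ∀ i, 0 < N i)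
    (hθ : ∀ i, θ i ^ N i = algebraMap ℚ Om (c i))
    (hS : ∀ p ∈ S, p.Prime ∧ ¬ p ∣ m) (hI : Ind (CY (m * ∏ p ∈ S, p)) θ N) (S' : Finset ℕ)
    (hS' : S' ⊆ S) (heq : ∀ p ∈ S', XX θ β m (S'.erase p) = XX θ β m S') :
    XX θ β m ∅ = XX θ β m S' := by
  classical
  have key : ∀ T : Finset ℕ, T ⊆ S' → ∀ σ : Om ≃ₐ[ℚ] Om, Fx θ m (S' \ T) σ →
      ∀ y ∈ XX θ β m S', σ y ∈ XX θ β m S' := by
    intro T
    induction T using Finset.induction_on with
    | empty =>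
      rintro - σ hσ y ⟨ρ, hρ, rfl⟩
      rw [Finset.sdiff_empty] at hσ
      exact ⟨σ * ρ, Fx_mul hσ hρ, rfl⟩
    | insert p T hp ih =>
      intro hT σ hσ y hy
      have hpS' : p ∈ S' := hT (Finset.mem_insert_self _ _)
      have hTS' : T ⊆ S' := fun x hx => hT (Finset.mem_insert_of_mem hx)
      obtain ⟨τ, hτ1, hτ2⟩ := sig_p N c θ m S hm hN hθ hS hI p (hS' hpS') σ
      have hcan : ∀ z : Om, τ z = σ z → (τ⁻¹ * σ) z = z := fun z hz => by
        rw [AlgEquiv.mul_apply, ← hz, ← AlgEquiv.mul_apply, inv_mul_cancel, AlgEquiv.one_apply]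
      have h1 : Fx θ m (S' \ T) (τ⁻¹ * σ) := by
        refine ⟨fun i => hcan _ (by rw [hτ1.1, hσ.1]), fun z hz => hcan _ (by
          rw [hτ1.2.1 z hz, hσ.2.1 z hz]), fun q hq z hz => hcan _ ?_⟩
        by_cases hqp : q = p
        · subst hqp
          exact hτ2 z hz
        · rw [Finset.mem_sdiff] at hq
          rw [hτ1.2.2 q (Finset.mem_erase.2 ⟨hqp, hS' hq.1⟩) z hz,
            hσ.2.2 q (by
              rw [Finset.mem_sdiff, Finset.mem_insert]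
              exact ⟨hq.1, fun hh => hh.elim hqp hq.2⟩) z hz]
      have h2 := ih hTS' _ h1 y hy
      obtain ⟨ρ, hρ, hρe⟩ := h2
      have h3 : σ y = τ (ρ β) := by
        rw [hρe, AlgEquiv.mul_apply, ← AlgEquiv.mul_apply, mul_inv_cancel, AlgEquiv.one_apply]
      rw [h3, ← heq p hpS']
      refine ⟨τ * ρ, Fx_mul ⟨hτ1.1, hτ1.2.1, fun q hq => hτ1.2.2 q ?_⟩
        ⟨hρ.1, hρ.2.1, fun q hq => hρ.2.2 q (Finset.mem_of_mem_erase hq)⟩, rfl⟩
      exact Finset.mem_erase.2 ⟨Finset.ne_of_mem_erase hq, hS' (Finset.mem_of_mem_erase hq)⟩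
  refine Set.Subset.antisymm ?_ (XX_mono θ β m (Finset.empty_subset _))
  rintro y ⟨σ, hσ, rfl⟩
  refine key S' (Finset.Subset.refl _) σ (by rw [Finset.sdiff_self]; exact hσ) β ?_
  exact ⟨1, ⟨fun _ => rfl, fun _ _ => rfl, fun _ _ _ _ => rfl⟩, rfl⟩

theorem pf_REM : T_REM := by
  classical
  intro r N c θ β m₂ S hm hN hθ hS hI
  have key : ∀ (n : ℕ) (S' : Finset ℕ), S'.card = n → S' ⊆ S →
      ∃ B ⊆ S', 2 ^ B.card * (XX θ β m₂ S').ncard ≤ (XX θ β m₂ ∅).ncard ∧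
        (XX θ β m₂ (S' \ B)).ncard = (XX θ β m₂ ∅).ncard := by
    intro n
    induction n with
    | zero =>
      intro S' h0 _
      rw [Finset.card_eq_zero] at h0
      subst h0
      exact ⟨∅, Finset.Subset.refl _, by simp, by simp⟩
    | succ n ih =>
      intro S' hcard hsub
      by_cases heq : ∀ p ∈ S', XX θ β m₂ (S'.erase p) = XX θ β m₂ S'
      · have hfull := XX_full N c θ β m₂ S hm hN hθ hS hI S' hsub heq
        refine ⟨∅, Finset.empty_subset _, ?_, ?_⟩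
        · simp [hfull]
        · simp [hfull]
      · push Not at heq
        obtain ⟨p, hp, hne⟩ := heq
        have h2 := XX_two θ β m₂ (Finset.erase_subset p S') hne
        obtain ⟨B, hB1, hB2, hB3⟩ := ih (S'.erase p) (by
          rw [Finset.card_erase_of_mem hp, hcard]; rfl)
          ((Finset.erase_subset _ _).trans hsub)
        have hpB : p ∉ B := fun h => Finset.ne_of_mem_erase (hB1 h) rfl
        refine ⟨insert p B, ?_, ?_, ?_⟩
        · intro q hq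
          rcases Finset.mem_insert.1 hq with rfl | hq
          · exact hp
          · exact Finset.mem_of_mem_erase (hB1 hq)
        · rw [Finset.card_insert_of_notMem hpB, pow_succ, mul_assoc]
          exact (Nat.mul_le_mul_left _ h2).trans hB2
        · have : S' \ insert p B = S'.erase p \ B := by
            ext q
            simp only [Finset.mem_sdiff, Finset.mem_insert, Finset.mem_erase]
            tauto
          rw [this]
          exact hB3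
  obtain ⟨B, hB1, hB2, hB3⟩ := key S.card S rfl (Finset.Subset.refl _)
  have hc0 : cc (GF θ m₂) β = (XX θ β m₂ ∅).ncard := by
    have := cc_eq θ β m₂ ∅ (by simp)
    simpa using this
  refine ⟨B, hB1, ?_, ?_⟩
  · rw [hc0]
    refine Nat.le_log_of_pow_le (by norm_num) ?_
    refine le_trans ?_ hB2
    have hpos : 0 < (XX θ β m₂ S).ncard := by
      rw [Set.ncard_pos (XX_fin θ β m₂ S)]
      exact ⟨β, 1, ⟨fun _ => rfl, fun _ _ => rfl, fun _ _ _ _ => rfl⟩, rfl⟩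
    exact Nat.le_mul_of_pos_right _ hpos
  · rw [hc0, cc_eq θ β m₂ (S \ B) (fun p hp => hS p (Finset.mem_sdiff.1 hp).1)]
    exact hB3

end Pool.Agent.H29.GG
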